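import Pool.Agent.KS6_49.TP.Core
import Pool.Agent.KS6_49.TP.EqualGaps

/-!
MP_4ff6b6_an: nonlinear three-point patterns near every point of a thick Cantor set, for every
function which is strictly differentiable at `0` with a slope different from `0` and `-1`.
-/

namespace Pool.Agent.Results.MP_4ff6b6_an.LocalAllSlopes

open Set Pool.Agent.KS6_49.TPD Pool.Agent.KS6_49.TP

/-- Thickness with the convention that a bridge of a gap `G` ends at the nearest bounded gap of
length strictly greater than `|G|` (the wording of the problem file). -/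
noncomputable def strictBridgeThickness (K : Set ℝ) : ENNReal :=
  bridgeThickness (fun g h => g < h) K

/-- no two bounded gaps have the same length -/
def DistinctGaps (K : Set ℝ) : Prop :=
  ∀ p q v w, IsGap K p q → IsGap K v w → q - p = w - v → p = v

/-- Near every point of `K` and at arbitrarily small scales there are patterns
`{x - t, x, x + f t} ⊆ K`. -/
def LocalPatterns (K : Set ℝ) (f : ℝ → ℝ) : Prop :=
  ∀ x₀ ∈ K, ∀ δ > 0, ∃ x t : ℝ, 0 < t ∧ t < δ ∧ |x - x₀| < δ ∧ x - t ∈ K ∧ x ∈ K ∧ x + f t ∈ K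

lemma gap_iff {K : Set ℝ} {p q : ℝ} : Gap K p q ↔ IsGap K p q := by
  unfold Gap IsGap
  constructor
  · rintro ⟨h1, h2, h3, h4⟩
    refine ⟨h1, h2, h3, fun x hx h => ?_⟩
    rcases h4 x hx with h5 | h5
    · exact absurd h.1 (not_lt.2 h5)
    · exact absurd h.2 (not_lt.2 h5)
  · rintro ⟨h1, h2, h3, h4⟩
    refine ⟨h1, h2, h3, fun x hx => ?_⟩
    by_contra h
    push Not at h
    exact h4 x hx h

theorem of_thickness {K : Set ℝ} (hK : IsCantorSet K) (stops : ℝ → ℝ → Prop)
    (hst : ∀ p q v w, IsGap K p q → IsGap K v w → (q ≤ v ∨ w ≤ p) → q - p ≤ w - v →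
      stops (q - p) (w - v))
    (h : 1 < bridgeThickness stops K) :
    ∃ c : ℝ, 1 < c ∧ Sep K c ∧ Good K c (sInf K) (sSup K) := by
  obtain ⟨hne, hcp, hp, -⟩ := hK
  obtain ⟨c, hc1, hc2⟩ := exists_between h
  have hctop : c ≠ ⊤ := ne_top_of_lt hc2
  have hc0 : (1 : ℝ) < c.toReal := by
    have := (ENNReal.toReal_lt_toReal ENNReal.one_ne_top hctop).2 hc1
    simpa using this
  have hgap : ∀ u v, IsGap K u v →
      c.toReal * (v - u) ≤ rightBridgeEnd stops K u v - v ∧
      c.toReal * (v - u) ≤ u - leftBridgeEnd stops K u v := by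
    intro u v huv
    have h1 : c ≤ min (ENNReal.ofReal ((rightBridgeEnd stops K u v - v) / (v - u)))
        (ENNReal.ofReal ((u - leftBridgeEnd stops K u v) / (v - u))) := by
      refine hc2.le.trans ?_
      exact (iInf_le _ u).trans ((iInf_le _ v).trans (iInf_le _ huv))
    have hpos : 0 < v - u := by linarith [huv.2.2.1]
    have key : ∀ r : ℝ, c ≤ ENNReal.ofReal (r / (v - u)) → c.toReal * (v - u) ≤ r := by
      intro r hr
      have h2 : c.toReal ≤ r / (v - u) := by
        by_contra hcon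
        push Not at hcon
        have h3 : ENNReal.ofReal (r / (v - u)) < ENNReal.ofReal c.toReal :=
          (ENNReal.ofReal_lt_ofReal_iff (by linarith)).2 hcon
        rw [ENNReal.ofReal_toReal hctop] at h3
        exact absurd hr (not_le.mpr h3)
      rwa [le_div_iff₀ hpos] at h2
    exact ⟨key _ (h1.trans (min_le_left _ _)), key _ (h1.trans (min_le_right _ _))⟩
  have hR : ∀ u v x, x ∈ {a | ∃ b, IsGap K a b ∧ v ≤ a ∧ stops (v - u) (b - a)} ∪ {sSup K} →
      IsGap K u v → rightBridgeEnd stops K u v ≤ x := by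
    intro u v x hx huv
    refine csInf_le ⟨v, ?_⟩ hx
    rintro y (⟨b', -, hy, -⟩ | hy)
    · exact hy
    · rw [mem_singleton_iff] at hy
      rw [hy]
      exact le_csSup hcp.bddAbove huv.2.1
  have hL : ∀ u v x, x ∈ {b | ∃ a, IsGap K a b ∧ b ≤ u ∧ stops (v - u) (b - a)} ∪ {sInf K} →
      IsGap K u v → x ≤ leftBridgeEnd stops K u v := by
    intro u v x hx huv
    refine le_csSup ⟨u, ?_⟩ hx
    rintro y (⟨b', -, hy, -⟩ | hy)
    · exact hy
    · rw [mem_singleton_iff] at hy
      rw [hy]
      exact csInf_le hcp.bddBelow huv.1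
  refine ⟨c.toReal, hc0, fun p q v w h1 h2 => ⟨fun a b => ?_, fun a b => ?_⟩, hcp.sInf_mem hne,
    hcp.sSup_mem hne, ?_, fun p q h1 _ _ => ?_⟩
  · rw [gap_iff] at h1 h2
    by_contra hh
    have h3 := hR p q v (Or.inl ⟨w, h2, a, hst p q v w h1 h2 (Or.inl a) (not_lt.1 hh)⟩) h1
    linarith [(hgap p q h1).1]
  · rw [gap_iff] at h1 h2
    by_contra hh
    have h3 := hL p q w (Or.inl ⟨v, h2, a, hst p q v w h1 h2 (Or.inr a) (not_lt.1 hh)⟩) h1
    linarith [(hgap p q h1).2]
  · obtain ⟨x, hx⟩ := hne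
    obtain ⟨y, ⟨-, hy⟩, hxy⟩ := preperfect_iff_nhds.1 hp.acc x hx univ Filter.univ_mem
    have a1 := csInf_le hcp.bddBelow hx
    have a2 := csInf_le hcp.bddBelow hy
    have a3 := le_csSup hcp.bddAbove hx
    have a4 := le_csSup hcp.bddAbove hy
    rcases lt_or_gt_of_ne hxy with h | h <;> linarith
  · rw [gap_iff] at h1
    have h3 := hL p q _ (Or.inr rfl) h1
    have h4 := hR p q _ (Or.inr rfl) h1
    constructor
    · linarith [(hgap p q h1).2]
    · linarith [(hgap p q h1).1]

/-- **Theorem.** (1) Let `K` be a Cantor set with Newhouse thickness `> 1` (a bridge of a gap ends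
at the nearest gap which is at least as long), or without two gaps of the same length and with
thickness `> 1` in the wording of the problem file (a bridge ends at the nearest strictly longer
gap). Let `f` be strictly differentiable at `0` (for instance `C¹`) with `f 0 = 0` and a derivative
`m` at `0` different from `0` and `-1`. Then `K` contains, near every point of `K` and at
arbitrarily small scales, patterns `{x - t, x, x + f t}`, `t > 0`.
(2) With the wording of the problem file for the thickness and with gaps of the same length the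
statement fails, even for a linear function. -/
theorem result :
    (∀ K : Set ℝ, IsCantorSet K →
      (1 < newhouseThickness K ∨ (DistinctGaps K ∧ 1 < strictBridgeThickness K)) →
      ∀ (f : ℝ → ℝ) (m : ℝ), HasStrictDerivAt f m 0 → f 0 = 0 → m ≠ 0 → m ≠ -1 →
        LocalPatterns K f) ∧
    (∃ (K : Set ℝ) (m : ℝ), IsCantorSet K ∧ 1 < strictBridgeThickness K ∧ 0 < m ∧
      ∀ x t : ℝ, 0 < t → ¬ (x - t ∈ K ∧ x ∈ K ∧ x + m * t ∈ K)) := by
  refine ⟨fun K hK hτ f m hf f0 hm0 hm1 x₀ hx₀ δ hδ => ?_, Pool.Agent.KS6_49.TPE.equalGaps⟩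
  obtain ⟨c, hc, hS, hG⟩ : ∃ c : ℝ, 1 < c ∧ Sep K c ∧ Good K c (sInf K) (sSup K) := by
    rcases hτ with h | ⟨hd, h⟩
    · exact of_thickness hK _ (fun p q v w _ _ _ h => h) h
    · refine of_thickness hK _ (fun p q v w h1 h2 h3 h4 => lt_of_le_of_ne h4 fun h5 => ?_) h
      have h6 := hd p q v w h1 h2 h5
      have h7 := h1.2.2.1
      have h8 := h2.2.2.1
      rcases h3 with h3 | h3 <;> linarith
  exact core' K hK.2.1 hK.2.2.2 c hc hS hG f m hf f0 hm0 hm1 x₀ hx₀ δ hδ

end Pool.Agent.Results.MP_4ff6b6_an.LocalAllSlopes
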